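import Mathlib
import Pool.Agent.H21.Lens.Defs
import Pool.Agent.H21.Lens.NonIsom

/-!
# Isospectral, non-isometric lens spaces with `n ≡ -1 (mod φ(q)/2)`

The pair `L(56; 1,1,3,9,11,13,15,17,23,25,25)`, `L(56; 1,1,3,9,11,13,15,17,17,23,25)` of
`21`-dimensional lens spaces. Here `n = 11` and `φ(56)/2 = 12`.
-/

set_option autoImplicit false

namespace Pool.Agent.Results.MP_1b0b4e_gt.IsospectralLens

open Pool.Agent.H21.LensDefs

/-- There are `n ≥ 2`, `q ≥ 3` with `n ≡ -1 (mod φ(q)/2)` and two `(2n-1)`-dimensional lens spaces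
`L(q;s)`, `L(q;s')` (all `s_j`, `s'_j` coprime to `q`) which are isospectral but not isometric; in
fact `n = 11`, `q = 56` and the two explicit vectors below. -/
theorem result :
    ∃ (n q : ℕ) (s s' : Fin n → ℤ), 2 ≤ n ∧ 3 ≤ q ∧
      (n : ℤ) ≡ -1 [ZMOD ((Nat.totient q / 2 : ℕ) : ℤ)] ∧
      (∀ j, IsCoprime (s j) (q : ℤ)) ∧ (∀ j, IsCoprime (s' j) (q : ℤ)) ∧
      Isospectral q s s' ∧ ¬ Isometric q s s' := by
  refine ⟨11, 56, ![1, 1, 3, 9, 11, 13, 15, 17, 23, 25, 25],
    ![1, 1, 3, 9, 11, 13, 15, 17, 17, 23, 25], by norm_num, by norm_num, ?_, ?_, ?_, ?_, ?_⟩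
  · have h : Nat.totient 56 = 24 := by decide +kernel
    rw [h]
    norm_num [Int.ModEq]
  · intro j
    rw [Int.isCoprime_iff_gcd_eq_one]
    revert j
    decide +kernel
  · intro j
    rw [Int.isCoprime_iff_gcd_eq_one]
    revert j
    decide +kernel
  · refine isospectral_of_cnt 56 (by norm_num) (by norm_num) _ _ (fun k => ?_)
    have h1 : wt 56 (![1, 1, 3, 9, 11, 13, 15, 17, 23, 25, 25] : Fin 11 → ℤ) =
        Sum.elim Pool.Agent.H21.Lens.s1 (fun j => - Pool.Agent.H21.Lens.s1 j) := by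
      ext i
      revert i
      decide +kernel
    have h2 : wt 56 (![1, 1, 3, 9, 11, 13, 15, 17, 17, 23, 25] : Fin 11 → ℤ) =
        Sum.elim Pool.Agent.H21.Lens.s2 (fun j => - Pool.Agent.H21.Lens.s2 j) := by
      ext i
      revert i
      decide +kernel
    rw [h1, h2]
    exact Pool.Agent.H21.Lens.cnt_s1_eq_s2 k
  · intro h
    obtain ⟨m, hm⟩ := card_le_of_isometric (by norm_num) (by norm_num) (by
        intro j
        rw [Int.isCoprime_iff_gcd_eq_one]
        revert j
        decide +kernel) (by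
        intro j
        rw [Int.isCoprime_iff_gcd_eq_one]
        revert j
        decide +kernel) h
    have h1 := hm 1
    have h2 := hm 25
    clear hm h
    revert m
    decide +kernel

end Pool.Agent.Results.MP_1b0b4e_gt.IsospectralLens
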